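import Pool.Agent.MWL.Stmts

namespace Pool.Agent.MWL.H97

open Pool.Agent.MVO Pool.Agent.Helper14_MV Pool.Agent.Helper2_MV

theorem psh_none {k : ℕ} {f a : ℕ → ℕ} {j : ℕ} (h : ∀ i ≤ k, f i ≠ j) : psh k f a j = 0 := by
  unfold psh
  apply Finset.sum_eq_zero
  intro i hi
  rw [if_neg (h i (by rw [Finset.mem_range] at hi; omega))]

theorem psh_one {k : ℕ} {f a : ℕ → ℕ} {j : ℕ} (i : ℕ) (hi : i ≤ k) (hf : f i = j)
    (h : ∀ i' ≤ k, f i' = j → i' = i) : psh k f a j = a i := by
  unfold psh
  rw [Finset.sum_eq_single i]
  · rw [if_pos hf]
  · intro i' hi' hne
    rw [if_neg (fun h' => hne (h i' (by rw [Finset.mem_range] at hi'; omega) h'))]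
  · intro h'
    exact absurd (Finset.mem_range.2 (by omega)) h'

theorem psh_two {k : ℕ} {f a : ℕ → ℕ} {j : ℕ} (i i' : ℕ) (hi : i ≤ k) (hi' : i' ≤ k)
    (hne : i ≠ i') (hf : f i = j) (hf' : f i' = j)
    (h : ∀ x ≤ k, f x = j → x = i ∨ x = i') : psh k f a j = a i + a i' := by
  unfold psh
  rw [← Finset.sum_subset (s₁ := {i, i'})]
  · rw [Finset.sum_pair hne, if_pos hf, if_pos hf']
  · intro x hx
    rw [Finset.mem_insert, Finset.mem_singleton] at hx
    rw [Finset.mem_range]
    omega
  · intro x hx hx'
    rw [Finset.mem_insert, Finset.mem_singleton, not_or] at hx'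
    rw [if_neg]
    intro h'
    rcases h x (by rw [Finset.mem_range] at hx; omega) h' with h'' | h''
    · exact hx'.1 h''
    · exact hx'.2 h''

/-- push, add, compare -/
theorem move (h1 : TrnStmt) {n : ℕ} {R : FC} {k : ℕ} {a : ℕ → ℕ} {i : ℕ} (k' : ℕ) (f : ℕ → ℕ)
    (d b : ℕ → ℕ) (i' : ℕ) (hf : BMap k k' f) (hi : i ≤ k) (h : Ab n R k a i)
    (hb : ∀ j ≤ k', psh k f a j + d j = b j) (hi' : f i = i') : Ab n R k' b i' := by
  have e1 := (h1 n R k a i).2.2.2 k' f hf hi h
  rw [hi'] at e1
  have e2 := (h1 n R k' (psh k f a) i').2.1 d e1
  exact ((h1 n R k' _ i').2.2.1 b hb).1 e2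

theorem arr (h1 : TrnStmt) (_h2 : HvpStmt) (h3 : AbsStmt) : ArrStmt := by
  intro n R hR
  refine ⟨?_, ?_, ?_, ?_, ?_, ?_⟩
  · intro h
    refine move h1 2 (fun j => j) (v3 0 0 2) _ 1 ⟨fun i j hij _ => hij, fun i hi => ?_⟩
      (le_refl 1) h ?_ rfl
    · have : i ≤ 1 := hi
      omega
    · intro j hj
      have hj' : j ≤ 2 := hj
      interval_cases j
      · rw [psh_one (k := 1) 0 (by omega) rfl (fun i' _ h => h)]
        rfl
      · rw [psh_one (k := 1) 1 (by omega) rfl (fun i' _ h => h)]
        rfl
      · rw [psh_none (k := 1) (fun i hi h => by have : i = 2 := h; omega)]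
        rfl
  · intro h
    refine move h1 2 (fun j => j + 1) (v3 2 0 0) _ 1 ⟨fun i j hij _ => ?_, fun i hi => ?_⟩
      (Nat.zero_le 1) h ?_ rfl
    · exact Nat.succ_le_succ hij
    · have : i ≤ 1 := hi
      show i + 1 ≤ 2
      omega
    · intro j hj
      have hj' : j ≤ 2 := hj
      interval_cases j
      · rw [psh_none (k := 1) (fun i hi h => by have : i + 1 = 0 := h; omega)]
        rfl
      · rw [psh_one (k := 1) 0 (by omega) rfl (fun i' _ h => by have : i' + 1 = 1 := h; omega)]
        rfl
      · rw [psh_one (k := 1) 1 (by omega) rfl (fun i' _ h => by have : i' + 1 = 2 := h; omega)]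
        rfl
  · intro h
    have e2 := (h1 n R 1 (v2 0 2) 0).2.1 (v2 1 0) h
    refine ((h1 n R 1 _ 0).2.2.1 _ ?_).1 e2
    intro j hj
    interval_cases j <;> rfl
  · intro l h
    refine move h1 (l + 1 + 1) (fun j => j + 1) (fun j => if j = 0 then 1 else 0) _ (l + 1)
      ⟨fun i j hij _ => ?_, fun i hi => ?_⟩ (show l ≤ l + 1 by omega) h ?_ rfl
    · exact Nat.succ_le_succ hij
    · have : i ≤ l + 1 := hi
      show i + 1 ≤ l + 1 + 1
      omega
    · intro j hj
      rcases Nat.eq_zero_or_pos j with rfl | hp
      · rw [psh_none (fun i hi h => by have : i + 1 = 0 := h; omega)]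
        show 0 + (if (0 : ℕ) = 0 then 1 else 0) = if 0 ≤ l + 1 then 1 else 2
        rw [if_pos rfl, if_pos (Nat.zero_le _)]
      · have hk : j - 1 ≤ l + 1 := by omega
        rw [psh_one (j - 1) hk (by show j - 1 + 1 = j; omega)
          (fun i' _ h => by have : i' + 1 = j := h; omega)]
        show (if j - 1 ≤ l then 1 else 2) + (if j = 0 then 1 else 0) = if j ≤ l + 1 then 1 else 2
        rw [if_neg (by omega : ¬ j = 0)]
        by_cases hc : j ≤ l + 1
        · rw [if_pos hc, if_pos (by omega)]
        · rw [if_neg hc, if_neg (by omega)]
  · intro q hq h
    constructor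
    · refine move h1 (q + 1 - 1) (fun j => j + 1) (fun j => if j = 0 then 1 else 0) _ (q + 1 - 1)
        ⟨fun i j hij _ => ?_, fun i hi => ?_⟩ (le_refl (q - 1)) h ?_ ?_
      · exact Nat.succ_le_succ hij
      · have : i ≤ q - 1 := hi
        show i + 1 ≤ q + 1 - 1
        omega
      · intro j hj
        rcases Nat.eq_zero_or_pos j with rfl | hp
        · rw [psh_none (fun i hi h => by have : i + 1 = 0 := h; omega)]
          rfl
        · have hk : j - 1 ≤ q - 1 := by omega
          rw [psh_one (j - 1) hk (by show j - 1 + 1 = j; omega)
            (fun i' _ h => by have : i' + 1 = j := h; omega)]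
          show 1 + (if j = 0 then 1 else 0) = 1
          rw [if_neg (by omega : ¬ j = 0)]
      · show q - 1 + 1 = q + 1 - 1
        omega
    · refine move h1 (q - 1 + 1) (fun j => j) (fun j => if j = q - 1 + 1 then 2 else 0) _ (q - 1)
        ⟨fun i j hij _ => hij, fun i hi => ?_⟩ (le_refl (q - 1)) h ?_ rfl
      · have : i ≤ q - 1 := hi
        show i ≤ q - 1 + 1
        omega
      · intro j hj
        show _ + (if j = q - 1 + 1 then 2 else 0) = if j ≤ q - 1 then 1 else 2
        by_cases hc : j = q - 1 + 1
        · rw [psh_none (fun i hi h => by
            have e1 : i = j := h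
            have e2 : i ≤ q - 1 := hi
            omega), if_pos hc, if_neg (by omega)]
        · have hj' : j ≤ q - 1 + 1 := hj
          have hk : j ≤ q - 1 := by omega
          rw [psh_one j hk rfl (fun i' _ h => h), if_neg hc, if_pos (by omega)]
          rfl
  · intro l
    rcases Nat.eq_zero_or_pos l with rfl | hl
    · unfold GG
      rw [if_pos rfl]
      refine (h1 n R 1 _ 0).2.2.1 _ ?_
      intro j hj
      interval_cases j <;> rfl
    · obtain ⟨m, rfl⟩ : ∃ m, l = m + 1 := ⟨l - 1, by omega⟩
      unfold GG
      rw [if_neg (by omega), Nat.add_sub_cancel]
      constructor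
      · intro h
        constructor
        · refine move h1 (m + 1) (fun j => if j < m + 1 then j else j - 1) (fun _ => 0) _ m
            ⟨fun i j hij _ => ?_, fun i hi => ?_⟩ (by omega : m + 1 ≤ m + 1 + 1) h ?_ ?_
          · show (if i < m + 1 then i else i - 1) ≤ if j < m + 1 then j else j - 1
            split_ifs <;> omega
          · show (if i < m + 1 then i else i - 1) ≤ m + 1
            split_ifs <;> omega
          · intro j hj
            show _ + 0 = if j ≤ m then 1 else 2
            rcases lt_trichotomy j m with hj1 | hj1 | hj1
            · rw [psh_one j (by omega) (by rw [if_pos (by omega)]) (fun i' _ h => by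
                try simp only at h
                split_ifs at h <;> omega), if_pos (by omega), if_pos (by omega)]
            · subst hj1
              rw [psh_two j (j + 1) (by omega) (by omega) (by omega) (by rw [if_pos (by omega)])
                (by rw [if_neg (by omega)]; omega) (fun i' _ h => by
                try simp only at h
                split_ifs at h <;> omega), if_pos (by omega), if_neg (by omega), if_pos rfl,
                if_pos (by omega)]
            · have hj2 : j = m + 1 := by omega
              subst hj2
              rw [psh_one (m + 1 + 1) (by omega) (by rw [if_neg (by omega)]; omega)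
                (fun i' _ h => by
                try simp only at h
                split_ifs at h <;> omega), if_neg (by omega), if_neg (by omega), if_neg (by omega)]
          · show (if m + 1 < m + 1 then m + 1 else m + 1 - 1) = m
            rw [if_neg (by omega)]
            omega
        · have hn := hR.pos
          have key : Ab n R 2 (v3 (2 + n * (m + 1)) 0 2) 1 := by
            refine move h1 2 (fun j => if j < m + 1 then 0 else j - (m + 1) + 1)
              (v3 (2 + (n - 1) * (m + 1)) 0 0) _ 1
              ⟨fun i j hij _ => ?_, fun i hi => ?_⟩ (by omega : m + 1 ≤ m + 1 + 1) h ?_ ?_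
            · show (if i < m + 1 then 0 else i - (m + 1) + 1) ≤
                if j < m + 1 then 0 else j - (m + 1) + 1
              split_ifs <;> omega
            · show (if i < m + 1 then 0 else i - (m + 1) + 1) ≤ 2
              split_ifs <;> omega
            · intro j hj
              interval_cases j
              · have e : psh (m + 1 + 1) (fun j => if j < m + 1 then 0 else j - (m + 1) + 1)
                    (fun j => if j < m + 1 then 1 else if j = m + 1 then 0 else 2) 0 = m + 1 := by
                  unfold psh
                  rw [Finset.sum_range_succ, Finset.sum_range_succ,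
                    if_neg (by simp), if_neg (by simp), Finset.sum_congr rfl
                    (g := fun _ => 1) (fun i hi => by
                      rw [Finset.mem_range] at hi
                      simp only
                      rw [if_pos hi, if_pos hi, if_pos rfl])]
                  simp
                rw [e]
                show m + 1 + (2 + (n - 1) * (m + 1)) = 2 + n * (m + 1)
                obtain ⟨n', rfl⟩ : ∃ n', n = n' + 1 := ⟨n - 1, by omega⟩
                rw [Nat.add_sub_cancel]
                ring
              · rw [psh_one (m + 1) (by omega) (by rw [if_neg (by omega)]; omega)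
                  (fun i' _ h => by
                  try simp only at h
                  split_ifs at h
                  omega), if_neg (by omega), if_pos rfl]
                rfl
              · rw [psh_one (m + 1 + 1) (by omega) (by rw [if_neg (by omega)]; omega)
                  (fun i' _ h => by
                  try simp only at h
                  split_ifs at h
                  omega), if_neg (by omega), if_neg (by omega)]
                rfl
            · show (if m + 1 < m + 1 then 0 else m + 1 - (m + 1) + 1) = 1
              rw [if_neg (by omega)]
              omega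
          have hr : R.R 2 (v3 (2 + n * (m + 1)) 0 2) (v3 2 0 2) := by
            apply (h3 n R hR 2 _).2
            intro j hj
            interval_cases j
            · right
              refine ⟨⟨?_, 0, le_refl 0, ?_⟩, ⟨?_, 0, le_refl 0, ?_⟩, ?_⟩
              · show 2 + n * (m + 1) ≠ 0
                omega
              · show 2 ≤ 2 + n * (m + 1)
                omega
              · show (2 : ℕ) ≠ 0
                omega
              · show 2 ≤ 2
                omega
              · show 2 + n * (m + 1) ≡ 2 [MOD n]
                simp [Nat.ModEq]
            · left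
              rfl
            · left
              rfl
          exact ((h1 n R 2 _ 1).1 _ hr).1 key
      · rintro ⟨hD, hF⟩
        have hn := hR.pos
        have e1 : Ab n R (m + 1 + 1)
            (fun j => if j < m + 1 then 1 else if j = m + 1 then 0 else 2) m := by
          refine move h1 (m + 1 + 1) (fun j => if j < m + 1 then j else m + 1 + 1) (fun _ => 0) _ m
            ⟨fun i j hij _ => ?_, fun i hi => ?_⟩ (show m ≤ m + 1 by omega) hD ?_ ?_
          · show (if i < m + 1 then i else m + 1 + 1) ≤ if j < m + 1 then j else m + 1 + 1
            split_ifs <;> omega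
          · show (if i < m + 1 then i else m + 1 + 1) ≤ m + 1 + 1
            split_ifs <;> omega
          · intro j hj
            show _ + 0 = if j < m + 1 then 1 else if j = m + 1 then 0 else 2
            rcases lt_trichotomy j (m + 1) with hj1 | hj1 | hj1
            · have hk : j ≤ m + 1 := by omega
              rw [psh_one j hk (by rw [if_pos hj1]) (fun i' _ h => by
                try simp only at h
                split_ifs at h <;> omega), if_pos hj1]
              show (if j ≤ m then 1 else 2) + 0 = 1
              rw [if_pos (by omega)]
            · rw [psh_none (fun i' _ h => by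
                try simp only at h
                split_ifs at h <;> omega), if_neg (by omega), if_pos hj1]
            · have hj2 : j = m + 1 + 1 := by omega
              subst hj2
              have hk : m + 1 ≤ m + 1 := le_refl _
              rw [psh_one (m + 1) hk (by rw [if_neg (by omega)]) (fun i' hi' h => by
                have hi2 : i' ≤ m + 1 := hi'
                try simp only at h
                split_ifs at h <;> omega), if_neg (by omega), if_neg (by omega)]
              show (if m + 1 ≤ m then 1 else 2) + 0 = 2
              rw [if_neg (by omega)]
          · show (if m < m + 1 then m else m + 1 + 1) = m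
            rw [if_pos (by omega)]
        refine ((h1 n R (m + 1 + 1) _ (m + 1)).1 _ e1).2 ?_
        refine move h1 (m + 1 + 1) (fun j => m + j)
          (fun j => if j < m then 1 else if j = m then 2 * n - 1 else 0) _ (m + 1)
          ⟨fun i j hij _ => ?_, fun i hi => ?_⟩ (by show 1 ≤ 2; omega) hF ?_ rfl
        · show m + i ≤ m + j
          omega
        · have : i ≤ 2 := hi
          show m + i ≤ m + 1 + 1
          omega
        · intro j hj
          show _ + (if j < m then 1 else if j = m then 2 * n - 1 else 0) =
            (if j < m + 1 then 1 else if j = m + 1 then 0 else 2) + if j = m then 2 * n else 0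
          rcases lt_or_ge j m with hj1 | hj1
          · rw [psh_none (fun i' _ h => by
                have : m + i' = j := h
                omega), if_pos hj1, if_pos (by omega), if_neg (by omega)]
          · obtain ⟨t, rfl⟩ : ∃ t, j = m + t := ⟨j - m, by omega⟩
            have ht : t ≤ 2 := by omega
            rw [psh_one t (by show t ≤ 2; exact ht) rfl (fun i' _ h => by
              have : m + i' = m + t := h
              omega)]
            interval_cases t
            · show 2 + _ = _
              rw [if_neg (by omega), if_pos (by omega), if_pos (by omega), if_pos (by omega)]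
              omega
            · show 0 + _ = _
              rw [if_neg (by omega), if_neg (by omega), if_neg (by omega), if_pos (by omega),
                if_neg (by omega)]
            · show 2 + _ = _
              rw [if_neg (by omega), if_neg (by omega), if_neg (by omega), if_neg (by omega),
                if_neg (by omega)]

end Pool.Agent.MWL.H97
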